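import Mathlib

set_option autoImplicit false

/-!
# Regions of cells and fillings avoiding `12` or `21`

Cells are pairs `(x, y)` of elements of a finite linear order `X`; a permutation `w` of `X` has the
points `(x, w x)`.
-/

namespace Pool.Agent.Q114.SignedWilf

section Defs

variable {X : Type*} [LinearOrder X]

/-- Strict south-west relation on cells. -/
def Sw (c d : X × X) : Prop := c.1 < d.1 ∧ c.2 < d.2

/-- Cells of `Z` below a chain of `j` points of `w` inside `Z`. -/
def R (w : Equiv.Perm X) (Z : Set (X × X)) : ℕ → Set (X × X)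
  | 0 => Z
  | j + 1 => {c | ∃ p : X, Sw c (p, w p) ∧ (p, w p) ∈ R w Z j}

/-- `w` avoids `12` (`b = true`) or `21` (`b = false`) inside the region `S`. -/
def P (b : Bool) (w : Equiv.Perm X) (S : Set (X × X)) : Prop :=
  match b with
  | true => ∀ x y, x < y → w x < w y → (y, w y) ∉ S
  | false => ∀ x y, x < y → w y < w x → (y, w x) ∉ S

theorem Sw.trans {a b c : X × X} (h : Sw a b) (h' : Sw b c) : Sw a c :=
  ⟨h.1.trans h'.1, h.2.trans h'.2⟩

theorem Sw.le {a b : X × X} (h : Sw a b) : a ≤ b := ⟨h.1.le, h.2.le⟩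

theorem Sw.lt {a b : X × X} (h : Sw a b) : a < b :=
  lt_of_le_of_ne h.le (fun e => absurd h.1 (by rw [e]; exact lt_irrefl _))

theorem Sw.of_le {a b c : X × X} (h : a ≤ b) (h' : Sw b c) : Sw a c :=
  ⟨lt_of_le_of_lt h.1 h'.1, lt_of_le_of_lt h.2 h'.2⟩

theorem R_lower {w : Equiv.Perm X} {Z : Set (X × X)} (hZ : IsLowerSet Z) (j : ℕ) :
    IsLowerSet (R w Z j) := by
  induction j with
  | zero => exact hZ
  | succ j ih =>
    rintro a b hba ⟨p, hp, hp'⟩
    exact ⟨p, Sw.of_le hba hp, hp'⟩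

theorem R_succ_subset {w : Equiv.Perm X} {Z : Set (X × X)} (hZ : IsLowerSet Z) (j : ℕ) :
    R w Z (j + 1) ⊆ R w Z j := by
  rintro c ⟨p, hp, hp'⟩
  exact R_lower hZ j hp.le hp'

theorem R_anti {w : Equiv.Perm X} {Z : Set (X × X)} (hZ : IsLowerSet Z) {i j : ℕ} (hij : i ≤ j) :
    R w Z j ⊆ R w Z i := by
  induction hij with
  | refl => exact subset_rfl
  | step _ ih => exact (R_succ_subset hZ _).trans ih

theorem R_subset {w : Equiv.Perm X} {Z : Set (X × X)} (hZ : IsLowerSet Z) (j : ℕ) :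
    R w Z j ⊆ Z := R_anti hZ (Nat.zero_le j)

theorem R_mono {w : Equiv.Perm X} {Z Z' : Set (X × X)} (h : Z ⊆ Z') (j : ℕ) :
    R w Z j ⊆ R w Z' j := by
  induction j with
  | zero => exact h
  | succ j ih =>
    rintro c ⟨p, hp, hp'⟩
    exact ⟨p, hp, ih hp'⟩

theorem mem_R_iff {w : Equiv.Perm X} {Z : Set (X × X)} (hZ : IsLowerSet Z) (j : ℕ) (c : X × X) :
    c ∈ R w Z j ↔ ∃ d ∈ Z, c ∈ R w (Set.Iic d) j := by
  constructor
  · induction j generalizing c with
    | zero => exact fun h => ⟨c, h, Set.mem_Iic.2 le_rfl⟩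
    | succ j ih =>
      rintro ⟨p, hp, hp'⟩
      obtain ⟨d, hd, hd'⟩ := ih _ hp'
      exact ⟨d, hd, p, hp, hd'⟩
  · rintro ⟨d, hd, hd'⟩
    exact R_mono (fun e he => hZ he hd) j hd'

theorem P_mono {b : Bool} {w : Equiv.Perm X} {S T : Set (X × X)} (h : S ⊆ T) (hT : P b w T) :
    P b w S := by
  cases b
  · exact fun x y h1 h2 h3 => hT x y h1 h2 (h h3)
  · exact fun x y h1 h2 h3 => hT x y h1 h2 (h h3)

/-- Cells whose weak south-west box contains no `α ⊕ 1_h`. -/
def ZA (b : Bool) (h : ℕ) (w : Equiv.Perm X) : Set (X × X) := {c | P b w (R w (Set.Iic c) h)}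

theorem P_iff {b : Bool} {w : Equiv.Perm X} {Z : Set (X × X)} (hZ : IsLowerSet Z) (h : ℕ) :
    P b w (R w Z h) ↔ Z ⊆ ZA b h w := by
  constructor
  · intro hP d hd
    exact P_mono (R_mono (fun e he => hZ he hd) h) hP
  · intro hP
    cases b
    · intro x y hxy hw hm
      obtain ⟨d, hd, hd'⟩ := (mem_R_iff hZ h _).1 hm
      exact hP hd x y hxy hw hd'
    · intro x y hxy hw hm
      obtain ⟨d, hd, hd'⟩ := (mem_R_iff hZ h _).1 hm
      exact hP hd x y hxy hw hd'

theorem ZA_lower (b : Bool) (h : ℕ) (w : Equiv.Perm X) : IsLowerSet (ZA b h w) := by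
  intro a c hca ha
  exact P_mono (R_mono (Set.Iic_subset_Iic.2 hca) h) ha

/-- Stability of the region: only the points of `Z` outside the region matter. -/
theorem R_stable [Finite X] {w w' : Equiv.Perm X} {Z : Set (X × X)} (hZ : IsLowerSet Z) (h : ℕ)
    (h1 : ∀ x, (x, w x) ∈ Z → (x, w x) ∉ R w Z h → w' x = w x)
    (h2 : ∀ x, (x, w' x) ∈ Z → (x, w' x) ∉ R w Z h → w x = w' x) :
    ∀ j ≤ h, R w' Z j = R w Z j := by
  intro j
  induction j with
  | zero => intro _; rfl
  | succ j ih =>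
    intro hj
    have ihj := ih (by omega)
    apply Set.Subset.antisymm
    · rintro c ⟨p, hp, hp'⟩
      rw [ihj] at hp'
      by_cases hR : (p, w' p) ∈ R w Z h
      · exact R_anti hZ hj (R_lower hZ h hp.le hR)
      · have e := h2 p (R_subset hZ j hp') hR
        rw [← e] at hp hp'
        exact ⟨p, hp, hp'⟩
    · rintro c ⟨p, hp, hp'⟩
      have hne : {q : X | Sw c (q, w q) ∧ (q, w q) ∈ R w Z j}.Nonempty := ⟨p, hp, hp'⟩
      obtain ⟨q, ⟨hq, hq'⟩, hmax⟩ := (Set.toFinite _).exists_maximal hne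
      have hR : (q, w q) ∉ R w Z h := by
        intro hR
        obtain ⟨p', hp1, hp2⟩ := R_anti hZ hj hR
        have := hmax ⟨Sw.trans hq hp1, hp2⟩ hp1.1.le
        exact absurd hp1.1 (not_lt.2 this)
      have e := h1 q (R_subset hZ j hq') hR
      refine ⟨q, ?_, ?_⟩
      · rw [e]; exact hq
      · rw [e, ihj]; exact hq'

end Defs

section Sym

variable {X : Type*} [LinearOrder X]

/-- Centrally symmetric permutations. -/
def Sym (ν : X → X) (w : Equiv.Perm X) : Prop := ∀ x, w (ν x) = ν (w x)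

/-- `w` and `w'` have the same region, the same rows and columns in it, and the same points outside
the region and its image under the rotation. -/
structure Rel (ν : X → X) (Z : Set (X × X)) (h : ℕ) (w w' : Equiv.Perm X) : Prop where
  reg : R w' Z h = R w Z h
  col : ∀ x, (x, w x) ∈ R w Z h ↔ (x, w' x) ∈ R w Z h
  row : ∀ x x', w x = w' x' → ((x, w x) ∈ R w Z h ↔ (x', w' x') ∈ R w Z h)
  out : ∀ x, (x, w x) ∉ R w Z h → (ν x, ν (w x)) ∉ R w Z h → w' x = w x

theorem Rel.refl (ν : X → X) (Z : Set (X × X)) (h : ℕ) (w : Equiv.Perm X) : Rel ν Z h w w where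
  reg := rfl
  col := fun _ => Iff.rfl
  row := fun x x' e => by rw [w.injective e]
  out := fun _ _ _ => rfl

theorem Rel.trans {ν : X → X} {Z : Set (X × X)} {h : ℕ} {w w' w'' : Equiv.Perm X}
    (h1 : Rel ν Z h w w') (h2 : Rel ν Z h w' w'') : Rel ν Z h w w'' := by
  obtain ⟨r1, c1, o1, u1⟩ := h1
  obtain ⟨r2, c2, o2, u2⟩ := h2
  rw [r1] at r2 c2 o2 u2
  refine ⟨r2, fun x => (c1 x).trans (c2 x), ?_, ?_⟩
  · intro x x' e
    have e' : w x = w' (w'.symm (w x)) := by simp
    rw [o1 x _ e', o2 (w'.symm (w x)) x' (by rw [← e, ← e'])]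
  · intro x hx hx'
    have e := u1 x hx hx'
    rw [← e] at hx hx'
    rw [← e]
    exact u2 x hx hx'

theorem Rel.symm {ν : X → X} {Z : Set (X × X)} {h : ℕ}
    {w w' : Equiv.Perm X} (hw : Sym ν w) (hw' : Sym ν w') (h1 : Rel ν Z h w w') :
    Rel ν Z h w' w := by
  obtain ⟨r1, c1, o1, u1⟩ := h1
  refine ⟨r1.symm, ?_, ?_, ?_⟩
  · intro x; rw [r1]; exact (c1 x).symm
  · intro x x' e; rw [r1]; exact (o1 x' x e.symm).symm
  · intro x hx hx'
    rw [r1] at hx hx'
    have h2 : (x, w x) ∉ R w Z h := fun hc => hx ((c1 x).1 hc)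
    have h3 : (ν x, ν (w x)) ∉ R w Z h := by
      intro hc
      rw [← hw x] at hc
      have := (c1 (ν x)).1 hc
      rw [hw' x] at this
      exact hx' this
    exact (u1 x h2 h3).symm

end Sym

section Swap

variable {X : Type*} [LinearOrder X] [Fintype X]

theorem sum_swap (v u : X → ℤ) (a b : X) (hab : a ≠ b) :
    ∑ x, v x * u (Equiv.swap a b x) = ∑ x, v x * u x - (v a - v b) * (u a - u b) := by
  have hsplit : ∀ f : X → ℤ, ∑ x, f x = f a + (f b + ∑ x ∈ (Finset.univ.erase a).erase b, f x) := by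
    intro f
    rw [← Finset.add_sum_erase _ f (Finset.mem_univ a),
      ← Finset.add_sum_erase _ f (Finset.mem_erase.2 ⟨hab.symm, Finset.mem_univ b⟩)]
  rw [hsplit, hsplit (fun x => v x * u x)]
  have hrest : ∑ x ∈ (Finset.univ.erase a).erase b, v x * u (Equiv.swap a b x) =
      ∑ x ∈ (Finset.univ.erase a).erase b, v x * u x := by
    apply Finset.sum_congr rfl
    intro x hx
    rw [Finset.mem_erase, Finset.mem_erase] at hx
    rw [Equiv.swap_apply_of_ne_of_ne hx.2.1 hx.1]
  rw [hrest, Equiv.swap_apply_left, Equiv.swap_apply_right]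
  ring

/-- The exchange step. -/
theorem step {ν : X → X} (hν : ∀ x, ν (ν x) = x) (hanti : ∀ x y, x < y → ν y < ν x)
    {v : X → ℤ} (hv : StrictMono v) {Z : Set (X × X)} (hZ : IsLowerSet Z)
    (hdisj : ∀ c ∈ Z, (ν c.1, ν c.2) ∉ Z) (h : ℕ) {w : Equiv.Perm X} (hw : Sym ν w)
    {a b : X} (hab : a < b) (hm1 : (b, w a) ∈ R w Z h) (hm2 : (b, w b) ∈ R w Z h) :
    ∃ w' : Equiv.Perm X, Sym ν w' ∧ Rel ν Z h w w' ∧
      (w a < w b → ∑ x, v x * v (w' x) < ∑ x, v x * v (w x)) ∧
      (w b < w a → ∑ x, v x * v (w x) < ∑ x, v x * v (w' x)) := by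
  have hRl := R_lower (w := w) hZ h
  have hRZ := R_subset (w := w) hZ h
  have haa : (a, w a) ∈ R w Z h := hRl (show ((a, w a) : X × X) ≤ (b, w a) from ⟨hab.le, le_rfl⟩) hm1
  have hab' : (a, w b) ∈ R w Z h := hRl (show ((a, w b) : X × X) ≤ (b, w b) from ⟨hab.le, le_rfl⟩) hm2
  have hνi : Function.Injective ν := fun x y e => by rw [← hν x, e, hν]
  -- the four columns are distinct
  have key : ∀ x y : X, (x, w x) ∈ Z → (y, w y) ∈ Z → x ≠ ν y := by
    intro x y hx hy e
    apply hdisj _ hy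
    have : (ν y, ν (w y)) = (x, w x) := by rw [← hw y, e]
    rw [this]; exact hx
  have n1 : a ≠ ν a := key a a (hRZ haa) (hRZ haa)
  have n2 : a ≠ ν b := key a b (hRZ haa) (hRZ hm2)
  have n3 : b ≠ ν a := key b a (hRZ hm2) (hRZ haa)
  have n4 : b ≠ ν b := key b b (hRZ hm2) (hRZ hm2)
  have n5 : ν a ≠ ν b := fun e => hab.ne (hνi e)
  set σ : Equiv.Perm X := Equiv.swap a b * Equiv.swap (ν a) (ν b) with hσ
  have s1 : σ a = b := by
    rw [hσ, Equiv.Perm.mul_apply, Equiv.swap_apply_of_ne_of_ne n1 n2, Equiv.swap_apply_left]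
  have s2 : σ b = a := by
    rw [hσ, Equiv.Perm.mul_apply, Equiv.swap_apply_of_ne_of_ne n3 n4, Equiv.swap_apply_right]
  have s3 : σ (ν a) = ν b := by
    rw [hσ, Equiv.Perm.mul_apply, Equiv.swap_apply_left,
      Equiv.swap_apply_of_ne_of_ne n2.symm n4.symm]
  have s4 : σ (ν b) = ν a := by
    rw [hσ, Equiv.Perm.mul_apply, Equiv.swap_apply_right,
      Equiv.swap_apply_of_ne_of_ne n1.symm n3.symm]
  have s5 : ∀ x, x ≠ a → x ≠ b → x ≠ ν a → x ≠ ν b → σ x = x := by
    intro x h1 h2 h3 h4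
    rw [hσ, Equiv.Perm.mul_apply, Equiv.swap_apply_of_ne_of_ne h3 h4,
      Equiv.swap_apply_of_ne_of_ne h1 h2]
  have hrot : ∀ x y : X, (x, y) ∈ R w Z h → (ν x, ν y) ∉ Z := fun x y hxy => hdisj _ (hRZ hxy)
  refine ⟨w * σ, ?_, ?_, ?_, ?_⟩
  · intro x
    show w (σ (ν x)) = ν (w (σ x))
    rw [← hw]
    congr 1
    by_cases h1 : x = a
    · rw [h1, s1, s3]
    by_cases h2 : x = b
    · rw [h2, s2, s4]
    by_cases h3 : x = ν a
    · rw [h3, s3, hν, hν, s1]
    by_cases h4 : x = ν b
    · rw [h4, s4, hν, hν, s2]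
    rw [s5 x h1 h2 h3 h4, s5 (ν x)]
    · intro e; exact h3 (by rw [← e, hν])
    · intro e; exact h4 (by rw [← e, hν])
    · intro e; exact h1 (hνi e)
    · intro e; exact h2 (hνi e)
  · have hcol : ∀ x, (x, w x) ∈ R w Z h ↔ (x, (w * σ) x) ∈ R w Z h := by
      intro x
      rw [Equiv.Perm.mul_apply]
      by_cases h1 : x = a
      · rw [h1, s1]; exact ⟨fun _ => hab', fun _ => haa⟩
      by_cases h2 : x = b
      · rw [h2, s2]; exact ⟨fun _ => hm1, fun _ => hm2⟩
      by_cases h3 : x = ν a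
      · rw [h3, s3, hw, hw]
        exact ⟨fun hc => absurd (hRZ hc) (hrot _ _ haa), fun hc => absurd (hRZ hc) (hrot _ _ hab')⟩
      by_cases h4 : x = ν b
      · rw [h4, s4, hw, hw]
        exact ⟨fun hc => absurd (hRZ hc) (hrot _ _ hm2), fun hc => absurd (hRZ hc) (hrot _ _ hm1)⟩
      rw [s5 x h1 h2 h3 h4]
    refine ⟨?_, hcol, ?_, ?_⟩
    · apply R_stable hZ h _ _ h le_rfl
      · intro x hx hx'
        rw [Equiv.Perm.mul_apply, s5 x]
        · rintro rfl; exact hx' haa
        · rintro rfl; exact hx' hm2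
        · rintro rfl; rw [hw] at hx; exact hrot _ _ haa hx
        · rintro rfl; rw [hw] at hx; exact hrot _ _ hm2 hx
      · intro x hx hx'
        rw [Equiv.Perm.mul_apply] at hx hx' ⊢
        rw [s5 x]
        · rintro rfl; rw [s1] at hx'; exact hx' hab'
        · rintro rfl; rw [s2] at hx'; exact hx' hm1
        · rintro rfl; rw [s3, hw] at hx; exact hrot _ _ hab' hx
        · rintro rfl; rw [s4, hw] at hx; exact hrot _ _ hm1 hx
    · intro x x' e
      rw [Equiv.Perm.mul_apply] at e ⊢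
      have e' : x = σ x' := w.injective e
      subst e'
      by_cases h1 : x' = a
      · rw [h1, s1]; exact ⟨fun _ => hab', fun _ => hm2⟩
      by_cases h2 : x' = b
      · rw [h2, s2]; exact ⟨fun _ => hm1, fun _ => haa⟩
      by_cases h3 : x' = ν a
      · rw [h3, s3, hw]
        exact ⟨fun hc => absurd (hRZ hc) (hrot _ _ hm2), fun hc => absurd (hRZ hc) (hrot _ _ hab')⟩
      by_cases h4 : x' = ν b
      · rw [h4, s4, hw]
        exact ⟨fun hc => absurd (hRZ hc) (hrot _ _ haa), fun hc => absurd (hRZ hc) (hrot _ _ hm1)⟩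
      rw [s5 x' h1 h2 h3 h4]
    · intro x hx hx'
      rw [Equiv.Perm.mul_apply, s5 x]
      · rintro rfl; exact hx haa
      · rintro rfl; exact hx hm2
      · rintro rfl; rw [hw, hν, hν] at hx'; exact hx' haa
      · rintro rfl; rw [hw, hν, hν] at hx'; exact hx' hm2
  all_goals
    intro hlt
    have e1 : ∑ x, v x * v ((w * σ) x) = ∑ x, v x * v (w x) - (v a - v b) * (v (w a) - v (w b))
        - (v (ν a) - v (ν b)) * (v (w (ν a)) - v (w (ν b))) := by
      have := sum_swap v (fun x => v (w (Equiv.swap a b x))) (ν a) (ν b) n5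
      simp only [Equiv.swap_apply_of_ne_of_ne n1.symm n3.symm,
        Equiv.swap_apply_of_ne_of_ne n2.symm n4.symm] at this
      rw [show ∑ x, v x * v ((w * σ) x) =
        ∑ x, v x * v (w (Equiv.swap a b (Equiv.swap (ν a) (ν b) x))) from rfl, this,
        sum_swap v (fun x => v (w x)) a b hab.ne]
    rw [e1, hw, hw]
    have g1 : v a < v b := hv hab
    have g2 : v (ν b) < v (ν a) := hv (hanti _ _ hab)
    have g3 := hv hlt
    have g4 := hv (hanti _ _ hlt)
    nlinarith [mul_pos (sub_pos.2 g1) (sub_pos.2 g3), mul_pos (sub_pos.2 g2) (sub_pos.2 g4)]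

/-- Existence of a representative avoiding `12` or `21`. -/
theorem exists_rep {ν : X → X} (hν : ∀ x, ν (ν x) = x) (hanti : ∀ x y, x < y → ν y < ν x)
    {v : X → ℤ} (hv : StrictMono v) {Z : Set (X × X)} (hZ : IsLowerSet Z)
    (hdisj : ∀ c ∈ Z, (ν c.1, ν c.2) ∉ Z) (h : ℕ) (b : Bool) {w : Equiv.Perm X} (hw : Sym ν w) :
    ∃ w' : Equiv.Perm X, Sym ν w' ∧ Rel ν Z h w w' ∧ P b w' (R w' Z h) := by
  classical
  set W : Finset (Equiv.Perm X) := Finset.univ.filter (fun w' => Sym ν w' ∧ Rel ν Z h w w') with hW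
  have hne : W.Nonempty := ⟨w, by rw [hW, Finset.mem_filter]; exact ⟨Finset.mem_univ _, hw, Rel.refl _ _ _ _⟩⟩
  cases b
  · obtain ⟨w', hw', hmax⟩ := W.exists_max_image (fun w' => ∑ x, v x * v (w' x)) hne
    rw [hW, Finset.mem_filter] at hw'
    refine ⟨w', hw'.2.1, hw'.2.2, ?_⟩
    intro x y hxy hlt hm
    have hm2 : (y, w' y) ∈ R w' Z h :=
      R_lower hZ h (show ((y, w' y) : X × X) ≤ (y, w' x) from ⟨le_rfl, hlt.le⟩) hm
    obtain ⟨w'', hs, hr, -, hgt⟩ := step hν hanti hv hZ hdisj h hw'.2.1 hxy hm hm2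
    have := hmax w'' (by rw [hW, Finset.mem_filter]; exact ⟨Finset.mem_univ _, hs, hw'.2.2.trans hr⟩)
    exact absurd (hgt hlt) (not_lt.2 this)
  · obtain ⟨w', hw', hmin⟩ := W.exists_min_image (fun w' => ∑ x, v x * v (w' x)) hne
    rw [hW, Finset.mem_filter] at hw'
    refine ⟨w', hw'.2.1, hw'.2.2, ?_⟩
    intro x y hxy hlt hm
    have hm2 : (y, w' x) ∈ R w' Z h :=
      R_lower hZ h (show ((y, w' x) : X × X) ≤ (y, w' y) from ⟨le_rfl, hlt.le⟩) hm
    obtain ⟨w'', hs, hr, hgt, -⟩ := step hν hanti hv hZ hdisj h hw'.2.1 hxy hm2 hm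
    have := hmin w'' (by rw [hW, Finset.mem_filter]; exact ⟨Finset.mem_univ _, hs, hw'.2.2.trans hr⟩)
    exact absurd (hgt hlt) (not_lt.2 this)

/-- Uniqueness of the representative. -/
theorem unique_rep {ν : X → X} (hν : ∀ x, ν (ν x) = x) {Z : Set (X × X)} (h : ℕ)
    (b : Bool) {w w' : Equiv.Perm X} (hw : Sym ν w) (hw' : Sym ν w') (hr : Rel ν Z h w w')
    (hP : P b w (R w Z h)) (hP' : P b w' (R w' Z h)) : w = w' := by
  classical
  rw [hr.reg] at hP'
  have hin : ∀ x, (x, w x) ∈ R w Z h → w x = w' x := by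
    by_contra hcon
    push Not at hcon
    set D : Finset X := Finset.univ.filter (fun x => (x, w x) ∈ R w Z h ∧ w x ≠ w' x) with hD
    have hne : D.Nonempty := by
      obtain ⟨x, hx, hx'⟩ := hcon
      exact ⟨x, by rw [hD, Finset.mem_filter]; exact ⟨Finset.mem_univ _, hx, hx'⟩⟩
    cases b
    · -- avoid 21 : rightmost difference
      have hx := Finset.max'_mem D hne
      set x := D.max' hne with hxdef
      rw [hD, Finset.mem_filter] at hx
      have hagree : ∀ y, x < y → (y, w y) ∈ R w Z h → w y = w' y := by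
        intro y hy hyR
        by_contra hc
        have : y ∈ D := by rw [hD, Finset.mem_filter]; exact ⟨Finset.mem_univ _, hyR, hc⟩
        exact absurd (Finset.le_max' D y this) (not_le.2 hy)
      rcases lt_or_gt_of_ne hx.2.2 with hlt | hlt
      · -- w x < w' x
        set y := w.symm (w' x) with hy
        have ey : w y = w' x := by rw [hy]; simp
        have hyR : (y, w y) ∈ R w Z h := (hr.row y x ey).2 ((hr.col x).1 hx.2.1)
        have hyx : y ≠ x := by intro e; rw [e] at ey; exact hx.2.2 ey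
        rcases lt_or_gt_of_ne hyx with h1 | h1
        · apply hP y x h1 (by rw [ey]; exact hlt)
          rw [ey]; exact (hr.col x).1 hx.2.1
        · have := hagree y h1 hyR
          rw [ey] at this
          exact hyx (w'.injective this).symm
      · -- w' x < w x
        set y := w'.symm (w x) with hy
        have ey : w' y = w x := by rw [hy]; simp
        have hyR' : (y, w' y) ∈ R w Z h := (hr.row x y ey.symm).1 hx.2.1
        have hyR : (y, w y) ∈ R w Z h := (hr.col y).2 hyR'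
        have hyx : y ≠ x := by intro e; rw [e] at ey; exact hx.2.2 ey.symm
        rcases lt_or_gt_of_ne hyx with h1 | h1
        · apply hP' y x h1 (by rw [ey]; exact hlt)
          rw [ey]; exact hx.2.1
        · have := hagree y h1 hyR
          rw [ey] at this
          exact hyx (w.injective this)
    · -- avoid 12 : leftmost difference
      have hx := Finset.min'_mem D hne
      set x := D.min' hne with hxdef
      rw [hD, Finset.mem_filter] at hx
      have hagree : ∀ y, y < x → (y, w y) ∈ R w Z h → w y = w' y := by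
        intro y hy hyR
        by_contra hc
        have : y ∈ D := by rw [hD, Finset.mem_filter]; exact ⟨Finset.mem_univ _, hyR, hc⟩
        exact absurd (Finset.min'_le D y this) (not_le.2 hy)
      rcases lt_or_gt_of_ne hx.2.2 with hlt | hlt
      · -- w x < w' x
        set y := w.symm (w' x) with hy
        have ey : w y = w' x := by rw [hy]; simp
        have hyR : (y, w y) ∈ R w Z h := (hr.row y x ey).2 ((hr.col x).1 hx.2.1)
        have hyx : y ≠ x := by intro e; rw [e] at ey; exact hx.2.2 ey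
        rcases lt_or_gt_of_ne hyx with h1 | h1
        · have := hagree y h1 hyR
          rw [ey] at this
          exact hyx (w'.injective this).symm
        · exact hP x y h1 (by rw [ey]; exact hlt) hyR
      · -- w' x < w x
        set y := w'.symm (w x) with hy
        have ey : w' y = w x := by rw [hy]; simp
        have hyR' : (y, w' y) ∈ R w Z h := (hr.row x y ey.symm).1 hx.2.1
        have hyR : (y, w y) ∈ R w Z h := (hr.col y).2 hyR'
        have hyx : y ≠ x := by intro e; rw [e] at ey; exact hx.2.2 ey.symm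
        rcases lt_or_gt_of_ne hyx with h1 | h1
        · have := hagree y h1 hyR
          rw [ey] at this
          exact hyx (w.injective this)
        · exact hP' x y h1 (by rw [ey]; exact hlt) hyR'
  ext x
  by_cases h1 : (x, w x) ∈ R w Z h
  · exact hin x h1
  by_cases h2 : (ν x, ν (w x)) ∈ R w Z h
  · rw [← hw x] at h2
    have := hin (ν x) h2
    rw [hw, hw'] at this
    rw [← hν (w x), this, hν]
  · exact (hr.out x h1 h2).symm

/-- The two kinds of representatives are equinumerous, with any weight constant on classes. -/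
theorem sum_rep_eq {ν : X → X} (hν : ∀ x, ν (ν x) = x) (hanti : ∀ x y, x < y → ν y < ν x)
    {v : X → ℤ} (hv : StrictMono v) {Z : Set (X × X)} (hZ : IsLowerSet Z)
    (hdisj : ∀ c ∈ Z, (ν c.1, ν c.2) ∉ Z) (h : ℕ)
    (f : Equiv.Perm X → ℤ)
    (hf : ∀ w w', Sym ν w → Sym ν w' → Rel ν Z h w w' → f w = f w')
    [DecidablePred fun w : Equiv.Perm X => Sym ν w ∧ P true w (R w Z h)]
    [DecidablePred fun w : Equiv.Perm X => Sym ν w ∧ P false w (R w Z h)] :
    ∑ w ∈ Finset.univ.filter (fun w : Equiv.Perm X => Sym ν w ∧ P true w (R w Z h)), f w =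
      ∑ w ∈ Finset.univ.filter (fun w : Equiv.Perm X => Sym ν w ∧ P false w (R w Z h)), f w := by
  classical
  have hrep : ∀ (b : Bool) (w : Equiv.Perm X), ∃ w' : Equiv.Perm X, Sym ν w →
      Sym ν w' ∧ Rel ν Z h w w' ∧ P b w' (R w' Z h) := by
    intro b w
    by_cases hw : Sym ν w
    · obtain ⟨w', h1⟩ := exists_rep hν hanti hv hZ hdisj h b hw
      exact ⟨w', fun _ => h1⟩
    · exact ⟨w, fun hc => absurd hc hw⟩
  choose g hg using hrep
  refine Finset.sum_bij (fun w _ => g false w) ?_ ?_ ?_ ?_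
  · intro w hw
    rw [Finset.mem_filter] at hw ⊢
    exact ⟨Finset.mem_univ _, (hg false w hw.2.1).1, (hg false w hw.2.1).2.2⟩
  · intro w hw w' hw' e
    rw [Finset.mem_filter] at hw hw'
    have h1 := hg false w hw.2.1
    have h2 := hg false w' hw'.2.1
    rw [← show g false w = g false w' from e] at h2
    have : Rel ν Z h w w' := h1.2.1.trans (h2.2.1.symm hw'.2.1 h2.1)
    exact unique_rep hν h true hw.2.1 hw'.2.1 this hw.2.2 hw'.2.2
  · intro w hw
    rw [Finset.mem_filter] at hw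
    have h1 := hg true w hw.2.1
    have h2 := hg false (g true w) h1.1
    refine ⟨g true w, ?_, ?_⟩
    · rw [Finset.mem_filter]; exact ⟨Finset.mem_univ _, h1.1, h1.2.2⟩
    · exact (unique_rep hν h false hw.2.1 h2.1 (h1.2.1.trans h2.2.1) hw.2.2 h2.2.2).symm
  · intro w hw
    rw [Finset.mem_filter] at hw
    exact hf w _ hw.2.1 (hg false w hw.2.1).1 (hg false w hw.2.1).2.1

end Swap

end Pool.Agent.Q114.SignedWilf
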