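import Pool.Agent.Q114.SignedWilf.Core

set_option autoImplicit false

/-!
# Moebius inversion over lower sets of cells
-/

namespace Pool.Agent.Q114.SignedWilf

open Finset

section Moebius

variable {C : Type*} [PartialOrder C] [Fintype C] [DecidableEq C]

open Classical in
/-- Maximal elements of a finite set. -/
noncomputable def maxs (Z : Finset C) : Finset C := Z.filter (fun c => ∀ d ∈ Z, ¬ c < d)

open Classical in
/-- Minimal elements of a finite set. -/
noncomputable def mins (Z : Finset C) : Finset C := Z.filter (fun c => ∀ d ∈ Z, ¬ d < c)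

theorem mem_maxs {Z : Finset C} {c : C} : c ∈ maxs Z ↔ c ∈ Z ∧ ∀ d ∈ Z, ¬ c < d := by
  classical
  rw [maxs, Finset.mem_filter]

theorem mem_mins {Z : Finset C} {c : C} : c ∈ mins Z ↔ c ∈ Z ∧ ∀ d ∈ Z, ¬ d < c := by
  classical
  rw [mins, Finset.mem_filter]

open Classical in
/-- Moebius inversion over the lower sets contained in a lower set `Z0`. -/
theorem moebius (κ : Finset C → ℤ) (Z0 : Finset C) (h0 : IsLowerSet (Z0 : Set C)) :
    ∑ Z ∈ Finset.univ.filter (fun Z : Finset C => IsLowerSet (Z : Set C) ∧ Z ⊆ Z0),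
      ∑ S ∈ (maxs Z).powerset, (-1 : ℤ) ^ S.card * κ (Z \ S) = κ Z0 := by
  have h1 : ∑ Z ∈ Finset.univ.filter (fun Z : Finset C => IsLowerSet (Z : Set C) ∧ Z ⊆ Z0),
      ∑ S ∈ (maxs Z).powerset, (-1 : ℤ) ^ S.card * κ (Z \ S) =
      ∑ Z ∈ Finset.univ.filter (fun Z : Finset C => IsLowerSet (Z : Set C) ∧ Z ⊆ Z0),
      ∑ S ∈ (mins (Z0 \ Z)).powerset, (-1 : ℤ) ^ S.card * κ Z := by
    rw [Finset.sum_sigma', Finset.sum_sigma']
    refine Finset.sum_bij' (fun p _ => ⟨p.1 \ p.2, p.2⟩) (fun p _ => ⟨p.1 ∪ p.2, p.2⟩)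
      ?_ ?_ ?_ ?_ ?_
    · rintro ⟨Z, S⟩ hp
      simp only [Finset.mem_sigma, Finset.mem_filter, Finset.mem_univ, true_and,
        Finset.mem_powerset] at hp ⊢
      obtain ⟨⟨hl, hsub⟩, hS⟩ := hp
      refine ⟨⟨?_, Finset.sdiff_subset.trans hsub⟩, ?_⟩
      · intro a b hba ha
        rw [Finset.mem_coe, Finset.mem_sdiff] at ha ⊢
        refine ⟨hl hba ha.1, fun hb => ?_⟩
        rcases eq_or_lt_of_le hba with e | e
        · exact ha.2 (e ▸ hb)
        · exact (mem_maxs.1 (hS hb)).2 a ha.1 e
      · intro s hs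
        rw [mem_mins]
        have hsZ := (mem_maxs.1 (hS hs)).1
        refine ⟨?_, ?_⟩
        · rw [Finset.mem_sdiff]
          exact ⟨hsub hsZ, fun hc => (Finset.mem_sdiff.1 hc).2 hs⟩
        · intro d hd hds
          rw [Finset.mem_sdiff, Finset.mem_sdiff] at hd
          have hdZ : d ∈ Z := hl hds.le hsZ
          have hdS : d ∈ S := by
            by_contra hc
            exact hd.2 ⟨hdZ, hc⟩
          exact (mem_maxs.1 (hS hdS)).2 s hsZ hds
    · rintro ⟨Z, S⟩ hp
      simp only [Finset.mem_sigma, Finset.mem_filter, Finset.mem_univ, true_and,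
        Finset.mem_powerset] at hp ⊢
      obtain ⟨⟨hl, hsub⟩, hS⟩ := hp
      have hS0 : ∀ s ∈ S, s ∈ Z0 ∧ s ∉ Z := fun s hs =>
        Finset.mem_sdiff.1 (mem_mins.1 (hS hs)).1
      refine ⟨⟨?_, Finset.union_subset hsub (fun s hs => (hS0 s hs).1)⟩, ?_⟩
      · intro a b hba ha
        rw [Finset.mem_coe, Finset.mem_union] at ha ⊢
        rcases ha with ha | ha
        · exact Or.inl (hl hba ha)
        · rcases eq_or_lt_of_le hba with e | e
          · exact Or.inr (e ▸ ha)
          · left
            by_contra hc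
            exact (mem_mins.1 (hS ha)).2 b
              (Finset.mem_sdiff.2 ⟨h0 hba (hS0 a ha).1, hc⟩) e
      · intro s hs
        rw [mem_maxs]
        refine ⟨Finset.mem_union_right _ hs, ?_⟩
        intro d hd hsd
        rcases Finset.mem_union.1 hd with hd | hd
        · exact (hS0 s hs).2 (hl hsd.le hd)
        · exact (mem_mins.1 (hS hd)).2 s (Finset.mem_sdiff.2 (hS0 s hs)) hsd
    · rintro ⟨Z, S⟩ hp
      simp only [Finset.mem_sigma, Finset.mem_filter, Finset.mem_univ, true_and,
        Finset.mem_powerset] at hp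
      obtain ⟨-, hS⟩ := hp
      have : (Z \ S) ∪ S = Z := by
        rw [Finset.sdiff_union_of_subset]
        exact fun s hs => (mem_maxs.1 (hS hs)).1
      simp only [this]
    · rintro ⟨Z, S⟩ hp
      simp only [Finset.mem_sigma, Finset.mem_filter, Finset.mem_univ, true_and,
        Finset.mem_powerset] at hp
      obtain ⟨-, hS⟩ := hp
      have : (Z ∪ S) \ S = Z := by
        ext c
        rw [Finset.mem_sdiff, Finset.mem_union]
        constructor
        · rintro ⟨h1 | h1, h2⟩
          · exact h1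
          · exact absurd h1 h2
        · intro h1
          exact ⟨Or.inl h1, fun h2 => (Finset.mem_sdiff.1 (mem_mins.1 (hS h2)).1).2 h1⟩
      simp only [this]
    · rintro ⟨Z, S⟩ _
      rfl
  rw [h1]
  have h2 : ∀ Z ∈ Finset.univ.filter (fun Z : Finset C => IsLowerSet (Z : Set C) ∧ Z ⊆ Z0),
      ∑ S ∈ (mins (Z0 \ Z)).powerset, (-1 : ℤ) ^ S.card * κ Z = if Z = Z0 then κ Z0 else 0 := by
    intro Z hZ
    rw [Finset.mem_filter] at hZ
    rw [← Finset.sum_mul, Finset.sum_powerset_neg_one_pow_card]
    by_cases hZZ : Z = Z0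
    · have : mins (Z0 \ Z) = ∅ := by
        rw [hZZ, Finset.sdiff_self]
        rfl
      rw [if_pos this, if_pos hZZ, one_mul, hZZ]
    · have : mins (Z0 \ Z) ≠ ∅ := by
        intro he
        have hne : (Z0 \ Z).Nonempty := by
          rw [Finset.sdiff_nonempty]
          exact fun hc => hZZ (Finset.Subset.antisymm hZ.2.2 hc)
        obtain ⟨m, hm, hmin⟩ := (Z0 \ Z).exists_minimal hne
        have : m ∈ mins (Z0 \ Z) := by
          rw [mem_mins]
          refine ⟨hm, fun d hd hdm => ?_⟩
          exact absurd hdm (not_lt_of_ge (hmin hd hdm.le))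
        rw [he] at this
        exact absurd this (Finset.notMem_empty _)
      rw [if_neg this, if_neg hZZ, zero_mul]
  rw [Finset.sum_congr rfl h2, Finset.sum_ite_eq' _ Z0 (fun _ => κ Z0), if_pos]
  rw [Finset.mem_filter]
  exact ⟨Finset.mem_univ _, h0, Finset.Subset.refl _⟩

end Moebius

section Main

variable {X : Type*} [LinearOrder X] [Fintype X]

/-- `c` strictly south-west of `c'`, with a point of `w` strictly in between if `ε = true`. -/
def Btw (ε : Bool) (w : Equiv.Perm X) (c c' : X × X) : Prop :=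
  match ε with
  | false => Sw c c'
  | true => ∃ p, Sw c (p, w p) ∧ Sw (p, w p) c'

/-- The covering condition. -/
def K (ν : X → X) (ε : Bool) (w : Equiv.Perm X) (Z : Set (X × X)) : Prop :=
  ∀ c c' : X × X, Btw ε w c c' → c ∈ Z ∨ (ν c'.1, ν c'.2) ∈ Z

omit [Fintype X] in
theorem Btw.sw {ε : Bool} {w : Equiv.Perm X} {c c' : X × X} (h : Btw ε w c c') : Sw c c' := by
  cases ε
  · exact h
  · obtain ⟨p, h1, h2⟩ := h
    exact h1.trans h2

omit [Fintype X] in
theorem K_mono {ν : X → X} {ε : Bool} {w : Equiv.Perm X} {Z Z' : Set (X × X)} (h : Z ⊆ Z')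
    (hK : K ν ε w Z) : K ν ε w Z' := fun c c' hb => (hK c c' hb).imp (@h _) (@h _)

open Classical in
/-- The coefficient of the region `Z`. -/
noncomputable def cf (ν : X → X) (ε : Bool) (w : Equiv.Perm X) (Z : Finset (X × X)) : ℤ :=
  ∑ S ∈ (maxs Z).powerset, (-1 : ℤ) ^ S.card *
    (if K ν ε w ((Z \ S : Finset (X × X)) : Set (X × X)) then 1 else 0)

/-- The coefficient vanishes unless `Z` is disjoint from its image under the rotation. -/
theorem cf_eq_zero {ν : X → X} (hν : ∀ x, ν (ν x) = x) (hanti : ∀ x y, x < y → ν y < ν x)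
    (ε : Bool) (w : Equiv.Perm X) (Z : Finset (X × X)) (hZ : IsLowerSet (Z : Set (X × X)))
    {c0 : X × X} (h1 : c0 ∈ Z) (h2 : (ν c0.1, ν c0.2) ∈ Z) : cf ν ε w Z = 0 := by
  classical
  have hanti' : ∀ x y, x ≤ y → ν y ≤ ν x := by
    intro x y hxy
    rcases eq_or_lt_of_le hxy with e | e
    · rw [e]
    · exact (hanti _ _ e).le
  obtain ⟨m, hm, hmax⟩ := (Z.filter (fun c => (ν c.1, ν c.2) ∈ Z)).exists_maximal
    ⟨c0, Finset.mem_filter.2 ⟨h1, h2⟩⟩
  rw [Finset.mem_filter] at hm
  have hmm : m ∈ maxs Z := by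
    rw [mem_maxs]
    refine ⟨hm.1, fun d hd hmd => ?_⟩
    have hd' : (ν d.1, ν d.2) ∈ Z :=
      hZ (show ((ν d.1, ν d.2) : X × X) ≤ (ν m.1, ν m.2) from
        ⟨hanti' _ _ hmd.le.1, hanti' _ _ hmd.le.2⟩) hm.2
    exact absurd hmd (not_lt_of_ge (hmax (Finset.mem_filter.2 ⟨hd, hd'⟩) hmd.le))
  have hK : ∀ S : Finset (X × X), S ⊆ maxs Z →
      (K ν ε w ((Z \ S : Finset (X × X)) : Set (X × X)) ↔
        K ν ε w ((Z \ insert m S : Finset (X × X)) : Set (X × X))) := by
    intro S hS
    constructor
    · intro h c c' hb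
      have hs := hb.sw
      -- nonmaximal elements of Z are in Z \ insert m S
      have hnm : ∀ d e : X × X, e ∈ Z → Sw d e → d ∈ ((Z \ insert m S : Finset (X × X)) : Set (X × X)) := by
        intro d e he hde
        have hdZ : d ∈ Z := hZ hde.le he
        rw [Finset.mem_coe, Finset.mem_sdiff]
        refine ⟨hdZ, fun hc => ?_⟩
        have : d ∈ maxs Z := by
          rcases Finset.mem_insert.1 hc with hc | hc
          · rw [hc]; exact hmm
          · exact hS hc
        exact (mem_maxs.1 this).2 e he hde.lt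
      rcases h c c' hb with hc | hc
      · rw [Finset.mem_coe, Finset.mem_sdiff] at hc
        by_cases hcm : c = m
        · right
          apply hnm _ (ν m.1, ν m.2) hm.2
          rw [← hcm]
          exact ⟨hanti _ _ hs.1, hanti _ _ hs.2⟩
        · left
          rw [Finset.mem_coe, Finset.mem_sdiff, Finset.mem_insert]
          exact ⟨hc.1, fun h' => h'.elim hcm hc.2⟩
      · rw [Finset.mem_coe, Finset.mem_sdiff] at hc
        by_cases hcm : (ν c'.1, ν c'.2) = m
        · left
          apply hnm _ (ν m.1, ν m.2) hm.2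
          rw [← hcm]
          simp only [hν]
          exact hs
        · right
          rw [Finset.mem_coe, Finset.mem_sdiff, Finset.mem_insert]
          exact ⟨hc.1, fun h' => h'.elim hcm hc.2⟩
    · intro h
      apply K_mono _ h
      intro d hd
      rw [Finset.mem_coe, Finset.mem_sdiff] at hd ⊢
      exact ⟨hd.1, fun hc => hd.2 (Finset.mem_insert_of_mem hc)⟩
  rw [cf]
  refine Finset.sum_involution (fun S _ => if m ∈ S then S.erase m else insert m S) ?_ ?_ ?_ ?_
  · intro S hS
    rw [Finset.mem_powerset] at hS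
    by_cases hmS : m ∈ S
    · simp only [hmS, if_true]
      have hc : S.card = (S.erase m).card + 1 := (Finset.card_erase_add_one hmS).symm
      have hi : insert m (S.erase m) = S := Finset.insert_erase hmS
      have := hK (S.erase m) ((Finset.erase_subset _ _).trans hS)
      rw [hi] at this
      rw [hc, pow_succ]
      by_cases hk : K ν ε w ((Z \ S : Finset (X × X)) : Set (X × X))
      · rw [if_pos hk, if_pos (this.2 hk)]; ring
      · rw [if_neg hk, if_neg (fun h' => hk (this.1 h'))]; ring
    · simp only [hmS, if_false]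
      have hc : (insert m S).card = S.card + 1 := Finset.card_insert_of_notMem hmS
      have := hK S hS
      rw [hc, pow_succ]
      by_cases hk : K ν ε w ((Z \ S : Finset (X × X)) : Set (X × X))
      · rw [if_pos hk, if_pos (this.1 hk)]; ring
      · rw [if_neg hk, if_neg (fun h' => hk (this.2 h'))]; ring
  · intro S _ _ he
    by_cases hmS : m ∈ S
    · simp only [hmS, if_true] at he
      have : m ∈ S.erase m := by rw [he]; exact hmS
      exact absurd this (Finset.notMem_erase _ _)
    · simp only [hmS, if_false] at he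
      exact hmS (by rw [← he]; exact Finset.mem_insert_self _ _)
  · intro S hS
    rw [Finset.mem_powerset] at hS
    by_cases hmS : m ∈ S
    · simp only [hmS, if_true, Finset.mem_powerset]
      exact (Finset.erase_subset _ _).trans hS
    · simp only [hmS, if_false, Finset.mem_powerset]
      exact Finset.insert_subset hmm hS
  · intro S _
    by_cases hmS : m ∈ S
    · simp [hmS]
    · simp [hmS]

/-- The coefficient is constant on classes. -/
theorem cf_congr {ν : X → X} (hanti : ∀ x y, x < y → ν y < ν x)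
    (ε : Bool) {Z : Finset (X × X)} (hZ : IsLowerSet (Z : Set (X × X))) (h : ℕ)
    {w w' : Equiv.Perm X} (hw : Sym ν w) (hw' : Sym ν w')
    (hr : Rel ν (Z : Set (X × X)) h w w') : cf ν ε w Z = cf ν ε w' Z := by
  classical
  have main : ∀ {w w' : Equiv.Perm X}, Sym ν w → Sym ν w' → Rel ν (Z : Set (X × X)) h w w' →
      ∀ S : Finset (X × X), S ⊆ maxs Z →
      K ν ε w ((Z \ S : Finset (X × X)) : Set (X × X)) →
        K ν ε w' ((Z \ S : Finset (X × X)) : Set (X × X)) := by
    intro w w' hw hw' hr S hS hK c c' hb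
    have hnm : ∀ d e : X × X, e ∈ Z → Sw d e → d ∈ ((Z \ S : Finset (X × X)) : Set (X × X)) := by
      intro d e he hde
      have hdZ : d ∈ Z := hZ hde.le he
      rw [Finset.mem_coe, Finset.mem_sdiff]
      exact ⟨hdZ, fun hc => (mem_maxs.1 (hS hc)).2 e he hde.lt⟩
    cases ε
    · exact hK c c' hb
    · obtain ⟨p, hp1, hp2⟩ := hb
      by_cases h1 : (p, w' p) ∈ Z
      · exact Or.inl (hnm _ _ h1 hp1)
      by_cases h2 : (ν p, ν (w' p)) ∈ Z
      · exact Or.inr (hnm _ _ h2 ⟨hanti _ _ hp2.1, hanti _ _ hp2.2⟩)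
      have hr' := hr.symm hw hw'
      have hsub : R w' (Z : Set (X × X)) h ⊆ (Z : Set (X × X)) := R_subset hZ h
      have e := hr'.out p (fun hc => h1 (hsub hc)) (fun hc => h2 (hsub hc))
      rw [← e] at hp1 hp2
      exact hK c c' ⟨p, hp1, hp2⟩
  rw [cf, cf]
  apply Finset.sum_congr rfl
  intro S hS
  rw [Finset.mem_powerset] at hS
  congr 1
  have h1 := main hw hw' hr S hS
  have h2 := main hw' hw (hr.symm hw hw') S hS
  by_cases hk : K ν ε w ((Z \ S : Finset (X × X)) : Set (X × X))
  · rw [if_pos hk, if_pos (h1 hk)]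
  · rw [if_neg hk, if_neg (fun h' => hk (h2 h'))]

open Classical in
/-- The main equidistribution. -/
theorem main_sum {ν : X → X} (hν : ∀ x, ν (ν x) = x) (hanti : ∀ x y, x < y → ν y < ν x)
    {v : X → ℤ} (hv : StrictMono v) (h : ℕ) (ε : Bool)
    (f : Equiv.Perm X → ℤ)
    (hf : ∀ Z : Set (X × X), IsLowerSet Z → (∀ c ∈ Z, (ν c.1, ν c.2) ∉ Z) →
      ∀ w w', Sym ν w → Sym ν w' → Rel ν Z h w w' → f w = f w') :
    ∑ w ∈ Finset.univ.filter (fun w : Equiv.Perm X => Sym ν w ∧ K ν ε w (ZA true h w)), f w =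
      ∑ w ∈ Finset.univ.filter (fun w : Equiv.Perm X => Sym ν w ∧ K ν ε w (ZA false h w)), f w := by
  have key : ∀ b : Bool,
      ∑ w ∈ Finset.univ.filter (fun w : Equiv.Perm X => Sym ν w ∧ K ν ε w (ZA b h w)), f w =
      ∑ Z ∈ Finset.univ.filter (fun Z : Finset (X × X) => IsLowerSet (Z : Set (X × X))),
        ∑ w ∈ Finset.univ.filter
          (fun w : Equiv.Perm X => Sym ν w ∧ P b w (R w (Z : Set (X × X)) h)),
          f w * cf ν ε w Z := by
    intro b
    have e1 : ∀ w : Equiv.Perm X, (if K ν ε w (ZA b h w) then (1 : ℤ) else 0) =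
        ∑ Z ∈ Finset.univ.filter (fun Z : Finset (X × X) => IsLowerSet (Z : Set (X × X))),
          if P b w (R w (Z : Set (X × X)) h) then cf ν ε w Z else 0 := by
      intro w
      have hcoe : (((ZA b h w).toFinset : Finset (X × X)) : Set (X × X)) = ZA b h w :=
        Set.coe_toFinset _
      have := moebius (fun Z : Finset (X × X) => if K ν ε w (Z : Set (X × X)) then (1 : ℤ) else 0)
        (ZA b h w).toFinset (by rw [hcoe]; exact ZA_lower b h w)
      rw [hcoe] at this
      rw [← this, Finset.sum_filter, Finset.sum_filter]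
      apply Finset.sum_congr rfl
      intro Z _
      by_cases hl : IsLowerSet (Z : Set (X × X))
      · by_cases hs : P b w (R w (Z : Set (X × X)) h)
        · have hs' : Z ⊆ (ZA b h w).toFinset := by
            rw [← Finset.coe_subset, hcoe]
            exact (P_iff hl h).1 hs
          rw [if_pos ⟨hl, hs'⟩, if_pos hl, if_pos hs]
          rfl
        · have hs' : ¬ Z ⊆ (ZA b h w).toFinset := by
            rw [← Finset.coe_subset, hcoe]
            exact fun hc => hs ((P_iff hl h).2 hc)
          rw [if_neg (fun hc => hs' hc.2), if_pos hl, if_neg hs]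
      · rw [if_neg (fun hc => hl hc.1), if_neg hl]
    calc ∑ w ∈ Finset.univ.filter (fun w : Equiv.Perm X => Sym ν w ∧ K ν ε w (ZA b h w)), f w
        = ∑ w ∈ Finset.univ.filter (fun w : Equiv.Perm X => Sym ν w),
            f w * (if K ν ε w (ZA b h w) then (1 : ℤ) else 0) := by
          rw [← Finset.filter_filter, Finset.sum_filter]
          apply Finset.sum_congr rfl
          intro w _
          rw [mul_ite, mul_one, mul_zero]
      _ = ∑ w ∈ Finset.univ.filter (fun w : Equiv.Perm X => Sym ν w),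
            ∑ Z ∈ Finset.univ.filter (fun Z : Finset (X × X) => IsLowerSet (Z : Set (X × X))),
              (if P b w (R w (Z : Set (X × X)) h) then f w * cf ν ε w Z else 0) := by
          apply Finset.sum_congr rfl
          intro w _
          rw [e1 w, Finset.mul_sum]
          apply Finset.sum_congr rfl
          intro Z _
          rw [mul_ite, mul_zero]
      _ = _ := by
          rw [Finset.sum_comm]
          apply Finset.sum_congr rfl
          intro Z _
          rw [← Finset.sum_filter, Finset.filter_filter]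
  rw [key true, key false]
  apply Finset.sum_congr rfl
  intro Z hZ
  rw [Finset.mem_filter] at hZ
  by_cases hd : ∀ c ∈ (Z : Set (X × X)), (ν c.1, ν c.2) ∉ (Z : Set (X × X))
  · apply sum_rep_eq hν hanti hv hZ.2 hd h
    intro w w' hw hw' hr
    rw [hf _ hZ.2 hd w w' hw hw' hr, cf_congr hanti ε hZ.2 h hw hw' hr]
  · push Not at hd
    obtain ⟨c, hc, hc'⟩ := hd
    rw [Finset.sum_eq_zero, Finset.sum_eq_zero]
    · intro w _
      rw [cf_eq_zero hν hanti ε w Z hZ.2 hc hc', mul_zero]
    · intro w _
      rw [cf_eq_zero hν hanti ε w Z hZ.2 hc hc', mul_zero]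

end Main

end Pool.Agent.Q114.SignedWilf
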