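import Pool.Agent.Q114.SignedWilf.Moebius

set_option autoImplicit false

/-!
# Patterns `1 2 ⋯ k` and `2 1 3 ⋯ (k-2) k (k-1)`
-/

namespace Pool.Agent.Q114.SignedWilf

/-- Exchange `0` and `1` if `b = false`. -/
def t0 (b : Bool) (i : ℕ) : ℕ := if b then i else if i = 0 then 1 else if i = 1 then 0 else i

/-- Exchange `0, 1` and `k-2, k-1` if `b = false`. -/
def tN (b : Bool) (k i : ℕ) : ℕ :=
  if b then i else if i = 0 then 1 else if i = 1 then 0 else
    if i + 2 = k then i + 1 else if i + 1 = k then i - 1 else i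

/-- Parity as a number. -/
def eN (ε : Bool) : ℕ := if ε then 1 else 0

theorem eN_le (ε : Bool) : eN ε ≤ 1 := by cases ε <;> simp [eN]

theorem t0_lt {b : Bool} {h i : ℕ} (hi : i < h + 2) : t0 b i < h + 2 := by
  cases b <;> simp only [t0, if_true, Bool.false_eq_true, if_false]
  · split_ifs <;> omega
  · exact hi

theorem t0_t0 (b : Bool) (i : ℕ) : t0 b (t0 b i) = i := by
  cases b
  · rcases i with _ | _ | i
    · rfl
    · rfl
    · rfl
  · rfl

theorem t0_of_le {b : Bool} {i : ℕ} (hi : 2 ≤ i) : t0 b i = i := by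
  cases b <;> simp only [t0, if_true, Bool.false_eq_true, if_false]
  split_ifs <;> omega

theorem tN_first {b : Bool} {h e k i : ℕ} (hk : k = 2 * h + 4 + e) (hi : i < h + 2) :
    tN b k i = t0 b i := by
  cases b <;> simp only [tN, t0, if_true, Bool.false_eq_true, if_false]
  split_ifs <;> omega

theorem tN_last {b : Bool} {h e k i : ℕ} (hk : k = 2 * h + 4 + e) (hi : i < h + 2) :
    tN b k (k - 1 - i) = k - 1 - t0 b i := by
  cases b
  · simp only [tN, t0, Bool.false_eq_true, if_false]
    split_ifs <;> omega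
  · simp only [tN, t0, if_true]

theorem tN_mid {b : Bool} {h k : ℕ} (hk : k = 2 * h + 5) : tN b k (h + 2) = h + 2 := by
  cases b
  · have h1 : ¬ (h + 2 = 0) := by omega
    have h2 : ¬ (h + 2 = 1) := by omega
    have h3 : ¬ (h + 2 + 2 = k) := by omega
    have h4 : ¬ (h + 2 + 1 = k) := by omega
    simp only [tN, Bool.false_eq_true, if_false, if_neg h1, if_neg h2, if_neg h3, if_neg h4]
  · rfl

theorem tN_lt {b : Bool} {k i : ℕ} (hk : 4 ≤ k) (hi : i < k) : tN b k i < k := by
  cases b <;> simp only [tN, if_true, Bool.false_eq_true, if_false]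
  · split_ifs <;> omega
  · exact hi

section Half

variable {X : Type*} [LinearOrder X]

/-- A copy of `α ⊕ 1_h` weakly south-west of the cell `c`. -/
def Half (b : Bool) (h : ℕ) (w : Equiv.Perm X) (c : X × X) (F : ℕ → X) : Prop :=
  (∀ i j, i < j → j < h + 2 → F i < F j) ∧
  (∀ i j, i < j → j < h + 2 → w (F (t0 b i)) < w (F (t0 b j))) ∧
  ∀ i, i < h + 2 → F i ≤ c.1 ∧ w (F i) ≤ c.2

theorem chain_of_mem {w : Equiv.Perm X} {c : X × X} (h : ℕ) (q : X × X)
    (hq : q ∈ R w (Set.Iic c) h) :
    q ≤ c ∧ ∃ G : ℕ → X, (∀ i j, i < j → j < h → G i < G j ∧ w (G i) < w (G j)) ∧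
      ∀ i, i < h → Sw q (G i, w (G i)) ∧ G i ≤ c.1 ∧ w (G i) ≤ c.2 := by
  induction h generalizing q with
  | zero => exact ⟨hq, fun _ => q.1, fun i j _ hj => absurd hj (by omega), fun i hi => absurd hi (by omega)⟩
  | succ h ih =>
    obtain ⟨p, hp, hp'⟩ := hq
    obtain ⟨hpc, G, hG1, hG2⟩ := ih (p, w p) hp'
    refine ⟨hp.le.trans hpc, fun i => Nat.casesOn i p G, ?_, ?_⟩
    · intro i j hij hj
      rcases j with _ | j
      · omega
      rcases i with _ | i
      · exact (hG2 j (by omega)).1
      · exact hG1 i j (by omega) (by omega)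
    · intro i hi
      rcases i with _ | i
      · exact ⟨hp, hpc.1, hpc.2⟩
      · have := hG2 i (by omega)
        exact ⟨hp.trans this.1, this.2⟩

theorem half_of_notMem {b : Bool} {h : ℕ} {w : Equiv.Perm X} {c : X × X}
    (hc : c ∉ ZA b h w) : ∃ F, Half b h w c F := by
  cases b
  · have hc' : ∃ x y, x < y ∧ w y < w x ∧ (y, w x) ∈ R w (Set.Iic c) h := by
      by_contra hcon
      apply hc
      intro x y h1 h2 h3
      exact hcon ⟨x, y, h1, h2, h3⟩
    obtain ⟨x, y, hxy, hw, hm⟩ := hc'
    obtain ⟨hqc, G, hG1, hG2⟩ := chain_of_mem h _ hm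
    refine ⟨fun i => Nat.casesOn i x (fun i => Nat.casesOn i y G), ?_, ?_, ?_⟩
    · intro i j hij hj
      rcases i with _ | _ | i <;> rcases j with _ | _ | j
      · exact absurd hij (by omega)
      · exact hxy
      · exact hxy.trans (hG2 j (by omega)).1.1
      · exact absurd hij (by omega)
      · exact absurd hij (by omega)
      · exact (hG2 j (by omega)).1.1
      · exact absurd hij (by omega)
      · exact absurd hij (by omega)
      · exact (hG1 i j (by omega) (by omega)).1
    · intro i j hij hj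
      rcases i with _ | _ | i <;> rcases j with _ | _ | j
      · exact absurd hij (by omega)
      · exact hw
      · exact hw.trans (hG2 j (by omega)).1.2
      · exact absurd hij (by omega)
      · exact absurd hij (by omega)
      · exact (hG2 j (by omega)).1.2
      · exact absurd hij (by omega)
      · exact absurd hij (by omega)
      · exact (hG1 i j (by omega) (by omega)).2
    · intro i hi
      rcases i with _ | _ | i
      · exact ⟨hxy.le.trans hqc.1, hqc.2⟩
      · exact ⟨hqc.1, hw.le.trans hqc.2⟩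
      · exact (hG2 i (by omega)).2
  · have hc' : ∃ x y, x < y ∧ w x < w y ∧ (y, w y) ∈ R w (Set.Iic c) h := by
      by_contra hcon
      apply hc
      intro x y h1 h2 h3
      exact hcon ⟨x, y, h1, h2, h3⟩
    obtain ⟨x, y, hxy, hw, hm⟩ := hc'
    obtain ⟨hqc, G, hG1, hG2⟩ := chain_of_mem h _ hm
    refine ⟨fun i => Nat.casesOn i x (fun i => Nat.casesOn i y G), ?_, ?_, ?_⟩
    · intro i j hij hj
      rcases i with _ | _ | i <;> rcases j with _ | _ | j
      · exact absurd hij (by omega)
      · exact hxy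
      · exact hxy.trans (hG2 j (by omega)).1.1
      · exact absurd hij (by omega)
      · exact absurd hij (by omega)
      · exact (hG2 j (by omega)).1.1
      · exact absurd hij (by omega)
      · exact absurd hij (by omega)
      · exact (hG1 i j (by omega) (by omega)).1
    · intro i j hij hj
      rcases i with _ | _ | i <;> rcases j with _ | _ | j
      · exact absurd hij (by omega)
      · exact hw
      · exact hw.trans (hG2 j (by omega)).1.2
      · exact absurd hij (by omega)
      · exact absurd hij (by omega)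
      · exact (hG2 j (by omega)).1.2
      · exact absurd hij (by omega)
      · exact absurd hij (by omega)
      · exact (hG1 i j (by omega) (by omega)).2
    · intro i hi
      rcases i with _ | _ | i
      · exact ⟨hxy.le.trans hqc.1, hw.le.trans hqc.2⟩
      · exact ⟨hqc.1, hqc.2⟩
      · exact (hG2 i (by omega)).2

theorem notMem_of_half {b : Bool} {h : ℕ} {w : Equiv.Perm X} {c : X × X} {F : ℕ → X}
    (hF : Half b h w c F) : c ∉ ZA b h w := by
  obtain ⟨h1, h2, h3⟩ := hF
  intro hP
  have claim : ∀ j, j ≤ h → ∀ q : X × X, q ≤ c →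
      (∀ i, h + 2 ≤ i + j → i < h + 2 → Sw q (F i, w (F i))) → q ∈ R w (Set.Iic c) j := by
    intro j
    induction j with
    | zero => intro _ q hq _; exact hq
    | succ j ih =>
      intro hj q _ hq'
      refine ⟨F (h + 1 - j), hq' _ (by omega) (by omega), ?_⟩
      apply ih (by omega)
      · have := h3 (h + 1 - j) (by omega)
        exact ⟨this.1, this.2⟩
      · intro i hi hi'
        refine ⟨h1 _ _ (by omega) hi', ?_⟩
        have := h2 (h + 1 - j) i (by omega) hi'
        rwa [t0_of_le (by omega), t0_of_le (by omega)] at this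
  cases b
  · have e1 : w (F 1) < w (F 0) := h2 0 1 (by omega) (by omega)
    apply hP (F 0) (F 1) (h1 0 1 (by omega) (by omega)) e1
    apply claim h le_rfl
    · exact ⟨(h3 1 (by omega)).1, (h3 0 (by omega)).2⟩
    · intro i hi hi'
      refine ⟨h1 1 i (by omega) hi', ?_⟩
      have : w (F 0) < w (F (t0 false i)) := h2 1 i (by omega) hi'
      rwa [t0_of_le (by omega)] at this
  · have e1 : w (F 0) < w (F 1) := h2 0 1 (by omega) (by omega)
    apply hP (F 0) (F 1) (h1 0 1 (by omega) (by omega)) e1
    apply claim h le_rfl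
    · exact ⟨(h3 1 (by omega)).1, (h3 1 (by omega)).2⟩
    · intro i hi hi'
      exact ⟨h1 1 i (by omega) hi', h2 1 i (by omega) hi'⟩

end Half

section Pat

variable {X : Type*} [LinearOrder X]

/-- The sequence `a` realises the pattern. -/
def PatC (b : Bool) (k : ℕ) (w : Equiv.Perm X) (a : ℕ → X) : Prop :=
  (∀ i j, i < j → j < k → a i < a j) ∧
  (∀ i j, i < j → j < k → w (a (tN b k i)) < w (a (tN b k j)))

theorem PatC.rot {ν : X → X} (hanti : ∀ x y, x < y → ν y < ν x) {b : Bool} {h e k : ℕ}
    (he : e ≤ 1) (hk : k = 2 * h + 4 + e) {w : Equiv.Perm X} (hw : Sym ν w) {a : ℕ → X}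
    (ha : PatC b k w a) : PatC b k w (fun i => ν (a (k - 1 - i))) := by
  refine ⟨?_, ?_⟩
  · intro i j hij hj
    exact hanti _ _ (ha.1 _ _ (by omega) (by omega))
  · intro i j hij hj
    simp only [hw _]
    apply hanti
    have hrev : ∀ l, l < k → k - 1 - tN b k l = tN b k (k - 1 - l) := by
      intro l hl
      by_cases h1 : l < h + 2
      · rw [tN_first hk h1, tN_last hk h1]
      by_cases h2 : k ≤ l + h + 2
      · have h3 : k - 1 - l < h + 2 := by omega
        have h4 : l = k - 1 - (k - 1 - l) := by omega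
        rw [tN_first hk h3]
        conv_lhs => rw [h4]
        rw [tN_last hk h3]
        have := t0_lt (b := b) h3
        omega
      · have h5 : e = 1 := by omega
        have h6 : l = h + 2 := by omega
        subst h5
        subst h6
        rw [tN_mid (by omega), show k - 1 - (h + 2) = h + 2 by omega, tN_mid (by omega)]
    rw [hrev i (by omega), hrev j hj]
    exact ha.2 _ _ (by omega) (by omega)

theorem half_of_patC {b : Bool} {h e k : ℕ} (hk : k = 2 * h + 4 + e) {w : Equiv.Perm X}
    {a : ℕ → X} (ha : PatC b k w a) : Half b h w (a (h + 1), w (a (t0 b (h + 1)))) a := by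
  refine ⟨fun i j hij hj => ha.1 i j hij (by omega), ?_, ?_⟩
  · intro i j hij hj
    rw [← tN_first hk (by omega : i < h + 2), ← tN_first hk hj]
    exact ha.2 i j hij (by omega)
  · intro i hi
    refine ⟨?_, ?_⟩
    · rcases Nat.lt_or_ge i (h + 1) with h1 | h1
      · exact (ha.1 _ _ h1 (by omega)).le
      · have : i = h + 1 := by omega
        rw [this]
    · have e1 : i = t0 b (t0 b i) := (t0_t0 b i).symm
      have h2 : t0 b i < h + 2 := t0_lt hi
      rw [e1]
      rcases Nat.lt_or_ge (t0 b i) (h + 1) with h1 | h1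
      · show w (a (t0 b (t0 b i))) ≤ w (a (t0 b (h + 1)))
        rw [← tN_first hk h2, ← tN_first hk (by omega : h + 1 < h + 2)]
        exact (ha.2 _ _ h1 (by omega)).le
      · have : t0 b i = h + 1 := by omega
        rw [this]

theorem exists_patC_iff {ν : X → X} (hν : ∀ x, ν (ν x) = x) (hanti : ∀ x y, x < y → ν y < ν x)
    {b : Bool} {h k : ℕ} (ε : Bool) (hk : k = 2 * h + 4 + eN ε) {w : Equiv.Perm X}
    (hw : Sym ν w) : (∃ a, PatC b k w a) ↔ ¬ K ν ε w (ZA b h w) := by
  have hanti' : ∀ x y, x ≤ y → ν y ≤ ν x := by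
    intro x y hxy
    rcases eq_or_lt_of_le hxy with e | e
    · rw [e]
    · exact (hanti _ _ e).le
  constructor
  · rintro ⟨a, ha⟩ hK
    have ha' := ha.rot hanti (eN_le ε) hk hw
    set a' : ℕ → X := fun i => ν (a (k - 1 - i)) with ha'def
    have hF := notMem_of_half (half_of_patC hk ha)
    have hG := notMem_of_half (half_of_patC hk ha')
    have hval : ν (w (a' (t0 b (h + 1)))) = w (a (tN b k (k - 1 - (h + 1)))) := by
      rw [tN_last hk (by omega : h + 1 < h + 2), ha'def]
      simp only [hw _, hν]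
    have hfst : ν (a' (h + 1)) = a (k - 1 - (h + 1)) := by
      rw [ha'def]; simp only [hν]
    rcases hK (a (h + 1), w (a (t0 b (h + 1)))) (ν (a' (h + 1)), ν (w (a' (t0 b (h + 1)))))
      (by
        rw [hval, hfst]
        cases ε
        · have hk' : k = 2 * h + 4 := hk
          refine ⟨ha.1 _ _ (by omega) (by omega), ?_⟩
          show w (a (t0 b (h + 1))) < _
          rw [← tN_first hk (by omega : h + 1 < h + 2)]
          exact ha.2 _ _ (by omega) (by omega)
        · have hk' : k = 2 * h + 5 := hk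
          refine ⟨a (h + 2), ⟨ha.1 _ _ (by omega) (by omega), ?_⟩,
            ⟨ha.1 _ _ (by omega) (by omega), ?_⟩⟩
          · show w (a (t0 b (h + 1))) < w (a (h + 2))
            rw [← tN_first hk (by omega : h + 1 < h + 2)]
            conv_rhs => rw [← tN_mid (b := b) hk']
            exact ha.2 _ _ (by omega) (by omega)
          · show w (a (h + 2)) < w (a (tN b k (k - 1 - (h + 1))))
            conv_lhs => rw [← tN_mid (b := b) hk']
            exact ha.2 _ _ (by omega) (by omega)) with h1 | h1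
    · exact hF h1
    · simp only [hν] at h1
      exact hG h1
  · intro hK
    have hK' : ∃ c c' : X × X, Btw ε w c c' ∧ c ∉ ZA b h w ∧ (ν c'.1, ν c'.2) ∉ ZA b h w := by
      by_contra hcon
      apply hK
      intro c c' hb
      by_contra hc
      push Not at hc
      exact hcon ⟨c, c', hb, hc.1, hc.2⟩
    obtain ⟨c, c', hb, hc, hc'⟩ := hK'
    obtain ⟨F, hF1, hF2, hF3⟩ := half_of_notMem hc
    obtain ⟨G, hG1, hG2, hG3⟩ := half_of_notMem hc'
    have hG4 : ∀ i, i < h + 2 → c'.1 ≤ ν (G i) ∧ c'.2 ≤ w (ν (G i)) := by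
      intro i hi
      have := hG3 i hi
      constructor
      · rw [← hν c'.1]; exact hanti' _ _ this.1
      · rw [← hν c'.2, hw]; exact hanti' _ _ this.2
    -- the middle point
    have hmid : ∃ p : X, (ε = true → Sw c (p, w p) ∧ Sw (p, w p) c') := by
      cases ε
      · exact ⟨c.1, fun hc => absurd hc (by decide)⟩
      · obtain ⟨p, hp⟩ := hb
        exact ⟨p, fun _ => hp⟩
    obtain ⟨p, hp⟩ := hmid
    have hcc : Sw c c' := hb.sw
    set a : ℕ → X := fun i => if i < h + 2 then F i else
      if k ≤ i + h + 2 then ν (G (k - 1 - i)) else p with hadef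
    have a1 : ∀ i, i < h + 2 → a i = F i := fun i hi => by rw [hadef]; simp only [hi, if_true]
    have a2 : ∀ i, k ≤ i + h + 2 → a i = ν (G (k - 1 - i)) := fun i hi => by
      rw [hadef]
      have : ¬ i < h + 2 := by omega
      simp only [this, if_false, hi, if_true]
    have a3 : ∀ i, ¬ i < h + 2 → ¬ k ≤ i + h + 2 → a i = p := fun i hi hi' => by
      rw [hadef]; simp only [hi, if_false, hi']
    have hε : ∀ i, ¬ i < h + 2 → ¬ k ≤ i + h + 2 → ε = true ∧ i = h + 2 := by
      intro i hi hi'
      cases ε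
      · have hk' : k = 2 * h + 4 := hk
        omega
      · have hk' : k = 2 * h + 5 := hk
        exact ⟨rfl, by omega⟩
    have hke : eN ε ≤ 1 := eN_le ε
    -- values at the permuted positions
    have b1 : ∀ i, i < h + 2 → w (a (tN b k i)) = w (F (t0 b i)) := by
      intro i hi
      rw [tN_first hk hi, a1 _ (t0_lt hi)]
    have b2 : ∀ i, i < k → k ≤ i + h + 2 → w (a (tN b k i)) = ν (w (G (t0 b (k - 1 - i)))) := by
      intro i hik hi
      have h3 : k - 1 - i < h + 2 := by omega
      have h4 : i = k - 1 - (k - 1 - i) := by omega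
      have h5 := t0_lt (b := b) h3
      conv_lhs => rw [h4]
      rw [tN_last hk h3, a2 _ (by omega), hw]
      congr 3
      omega
    have b3 : ∀ i, ¬ i < h + 2 → ¬ k ≤ i + h + 2 → w (a (tN b k i)) = w p := by
      intro i hi hi'
      obtain ⟨e1, e2⟩ := hε i hi hi'
      subst e1
      rw [e2, tN_mid hk, ← e2, a3 i hi hi']
    refine ⟨a, ?_, ?_⟩
    · intro i j hij hj
      by_cases hi1 : i < h + 2
      · rw [a1 i hi1]
        by_cases hj1 : j < h + 2
        · rw [a1 j hj1]; exact hF1 i j hij hj1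
        by_cases hj2 : k ≤ j + h + 2
        · rw [a2 j hj2]
          exact lt_of_le_of_lt (hF3 i hi1).1 (lt_of_lt_of_le hcc.1 (hG4 _ (by omega)).1)
        · rw [a3 j hj1 hj2]
          exact lt_of_le_of_lt (hF3 i hi1).1 (hp (hε j hj1 hj2).1).1.1
      by_cases hi2 : k ≤ i + h + 2
      · rw [a2 i hi2, a2 j (by omega)]
        exact hanti _ _ (hG1 _ _ (by omega) (by omega))
      · rw [a3 i hi1 hi2]
        have hi3 := hε i hi1 hi2
        have hj1 : ¬ j < h + 2 := by omega
        have hj2 : k ≤ j + h + 2 := by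
          by_contra hj2
          have := (hε j hj1 hj2).2
          omega
        rw [a2 j hj2]
        exact lt_of_lt_of_le (hp hi3.1).2.1 (hG4 _ (by omega)).1
    · intro i j hij hj
      by_cases hi1 : i < h + 2
      · rw [b1 i hi1]
        have hFi := (hF3 _ (t0_lt (b := b) hi1)).2
        by_cases hj1 : j < h + 2
        · rw [b1 j hj1]; exact hF2 i j hij hj1
        by_cases hj2 : k ≤ j + h + 2
        · rw [b2 j hj hj2, ← hw]
          exact lt_of_le_of_lt hFi (lt_of_lt_of_le hcc.2 (hG4 _ (t0_lt (by omega))).2)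
        · rw [b3 j hj1 hj2]
          exact lt_of_le_of_lt hFi (hp (hε j hj1 hj2).1).1.2
      by_cases hi2 : k ≤ i + h + 2
      · rw [b2 i (by omega) hi2, b2 j hj (by omega)]
        exact hanti _ _ (hG2 _ _ (by omega) (by omega))
      · rw [b3 i hi1 hi2]
        have hi3 := hε i hi1 hi2
        have hj1 : ¬ j < h + 2 := by omega
        have hj2 : k ≤ j + h + 2 := by
          by_contra hj2
          have := (hε j hj1 hj2).2
          omega
        rw [b2 j hj hj2, ← hw]
        exact lt_of_lt_of_le (hp hi3.1).2.2 (hG4 _ (t0_lt (by omega))).2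

/-- Pattern containment (generic linear order). -/
def GContains {k : ℕ} (w : Equiv.Perm X) (π : Equiv.Perm (Fin k)) : Prop :=
  ∃ a : Fin k → X, StrictMono a ∧ ∀ r s, w (a r) < w (a s) ↔ π r < π s

theorem gcontains_iff {b : Bool} {k : ℕ} (hk : 4 ≤ k) (w : Equiv.Perm X)
    (π : Equiv.Perm (Fin k)) (hπ : ∀ i, π (π i) = i)
    (hval : ∀ i : Fin k, (π i : ℕ) = tN b k i) :
    GContains w π ↔ ∃ a, PatC b k w a := by
  constructor
  · rintro ⟨a, ha1, ha2⟩
    refine ⟨fun i => if hi : i < k then a ⟨i, hi⟩ else a ⟨0, by omega⟩, ?_, ?_⟩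
    · intro i j hij hj
      have hi : i < k := by omega
      simp only [hi, hj, dif_pos]
      exact ha1 (by exact hij)
    · intro i j hij hj
      have hi : i < k := by omega
      simp only [tN_lt (b := b) hk hi, tN_lt (b := b) hk hj, dif_pos]
      have e1 : (⟨tN b k i, tN_lt hk hi⟩ : Fin k) = π ⟨i, hi⟩ := by
        ext; rw [hval]
      have e2 : (⟨tN b k j, tN_lt hk hj⟩ : Fin k) = π ⟨j, hj⟩ := by
        ext; rw [hval]
      rw [e1, e2, ha2, hπ, hπ]
      exact hij
  · rintro ⟨a, ha1, ha2⟩
    refine ⟨fun i => a i, fun i j hij => ha1 i j hij j.2, ?_⟩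
    have hmono : StrictMono (fun i : Fin k => w (a (π i : Fin k))) := by
      intro i j hij
      show w (a (π i : Fin k)) < w (a (π j : Fin k))
      rw [hval, hval]
      exact ha2 i j hij j.2
    intro r s
    have := hmono.lt_iff_lt (a := π r) (b := π s)
    simp only [hπ] at this
    exact this

end Pat

section Stat

variable {X : Type*} [LinearOrder X] [Fintype X]

open Classical in
/-- The number of negative positions with negative value is constant on classes. -/
theorem stat_congr {ν : X → X} {N : X → Prop} (hN : ∀ x, N (ν x) ↔ ¬ N x)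
    (hNle : ∀ x y, x ≤ y → N y → N x)
    (Z : Set (X × X)) (hZ : IsLowerSet Z) (hdisj : ∀ c ∈ Z, (ν c.1, ν c.2) ∉ Z) (h : ℕ)
    (w w' : Equiv.Perm X) (hw' : Sym ν w') (hw : Sym ν w) (hr : Rel ν Z h w w') :
    ∑ x, (if N x ∧ N (w x) then (1 : ℤ) else 0) = ∑ x, (if N x ∧ N (w' x) then (1 : ℤ) else 0) := by
  have hRZ := R_subset (w := w) hZ h
  have hνle : ∀ x, ¬ N x → ν x ≤ x := by
    intro x hx
    by_contra hc
    push Not at hc
    exact hx (hNle _ _ hc.le ((hN x).2 hx))
  have hnopp : ∀ x y, (x, y) ∈ R w Z h → ¬ N x → N y := by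
    intro x y hxy hx
    by_contra hy
    apply hdisj _ (hRZ hxy)
    exact hZ (show ((ν x, ν y) : X × X) ≤ (x, y) from ⟨hνle x hx, hνle y hy⟩) (hRZ hxy)
  have hpt : ∀ x, (if N x ∧ N (w x) then (1 : ℤ) else 0) - (if N x ∧ N (w' x) then (1 : ℤ) else 0) =
      (if (x, w x) ∈ R w Z h then (if N (w x) then (1 : ℤ) else 0) else 0) -
      (if (x, w' x) ∈ R w Z h then (if N (w' x) then (1 : ℤ) else 0) else 0) := by
    intro x
    by_cases h1 : (x, w x) ∈ R w Z h
    · have h2 := (hr.col x).1 h1
      have g1 := hnopp _ _ h1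
      have g2 := hnopp _ _ h2
      rw [if_pos h1, if_pos h2]
      by_cases hx : N x
      · simp [hx]
      · simp [hx, g1 hx, g2 hx]
    · have h2 : (x, w' x) ∉ R w Z h := fun hc => h1 ((hr.col x).2 hc)
      rw [if_neg h1, if_neg h2, sub_zero]
      by_cases h3 : (ν x, ν (w x)) ∈ R w Z h
      · have h4 : (ν x, ν (w' x)) ∈ R w Z h := by
          rw [← hw'] 
          rw [← hw] at h3
          exact (hr.col _).1 h3
        have g1 := hnopp _ _ h3
        have g2 := hnopp _ _ h4
        rw [hN, hN, not_not] at g1 g2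
        rw [if_neg (fun hc => g1 hc.1 hc.2), if_neg (fun hc => g2 hc.1 hc.2), sub_zero]
      · rw [hr.out x h1 h3, sub_self]
  have hsum : ∑ x, (if (x, w x) ∈ R w Z h then (if N (w x) then (1 : ℤ) else 0) else 0) =
      ∑ x, (if (x, w' x) ∈ R w Z h then (if N (w' x) then (1 : ℤ) else 0) else 0) := by
    rw [← Equiv.sum_comp w.symm, ← Equiv.sum_comp w'.symm
      (fun x => (if (x, w' x) ∈ R w Z h then (if N (w' x) then (1 : ℤ) else 0) else 0))]
    apply Finset.sum_congr rfl
    intro y _
    have := hr.row (w.symm y) (w'.symm y) (by simp)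
    simp only [Equiv.apply_symm_apply] at this ⊢
    by_cases hc : (w.symm y, y) ∈ R w Z h
    · rw [if_pos hc, if_pos (this.1 hc)]
    · rw [if_neg hc, if_neg (fun h' => hc (this.2 h'))]
  rw [← sub_eq_zero, ← Finset.sum_sub_distrib, Finset.sum_congr rfl (fun x _ => hpt x),
    Finset.sum_sub_distrib, hsum, sub_self]

end Stat

end Pool.Agent.Q114.SignedWilf
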